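import Pool.Agent.FZC.Fin
import Pool.Agent.NoH.Fin
import Pool.Agent.NoH.Top
import Pool.Agent.Lps.Lim

set_option autoImplicit false

/-!
# The Feinberg-Zee spectrum is connected and all its loops contract

The theorem `Spectrum_eq` shows that the set `Spectrum` is, verbatim, the one of the frozen
statement `S03875`.
-/

namespace Pool.Agent.Results.MP_1366af_an.LoopsContract

/-- `ℓ²(ℤ)`, the square-summable sequences `ℤ → ℂ`. -/
abbrev L2Z : Type := lp (fun _ : ℤ => ℂ) 2

/-- The bounded linear operators on `ℓ²(ℤ)`. -/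
abbrev Op : Type := L2Z →L[ℂ] L2Z

/-- `y = (A_b - z) x`, where `(A_b x) n = x (n + 1) + b (n - 1) * x (n - 1)`. -/
def Eqn (b : ℤ → ℂ) (z : ℂ) (x y : L2Z) : Prop :=
  ∀ n : ℤ, y n = x (n + 1) + b (n - 1) * x (n - 1) - z * x n

/-- `A_b - z` has a bounded inverse `B`. -/
def HasInverse (b : ℤ → ℂ) (z : ℂ) : Prop :=
  ∃ B : Op, ∀ x y : L2Z, Eqn b z x y ↔ B y = x

/-- The Feinberg-Zee spectrum: the union of the spectra of `A_b` over all sign sequences `b`. -/
def Spectrum : Set ℂ :=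
  {z : ℂ | ∃ b : ℤ → ℂ, (∀ n, b n = 1 ∨ b n = -1) ∧ ¬ HasInverse b z}

theorem Spectrum_eq : Spectrum = {z : ℂ | ∃ b : ℤ → ℂ, (∀ n, b n = 1 ∨ b n = -1) ∧
      ¬ ∃ B : lp (fun _ : ℤ => ℂ) 2 →L[ℂ] lp (fun _ : ℤ => ℂ) 2,
        ∀ x y : lp (fun _ : ℤ => ℂ) 2,
          (∀ n : ℤ, y n = x (n + 1) + b (n - 1) * x (n - 1) - z * x n) ↔ B y = x} := rfl

theorem compl_eq_NN : Spectrumᶜ = Pool.Agent.NoH.NN := by
  ext z
  exact Pool.Agent.NoH.mem_iff z

theorem isConnected_compl : IsConnected Spectrumᶜ := by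
  rw [compl_eq_NN]
  refine Pool.Agent.NoH.isConnected_NN ?_
  intro z hz
  exact (Pool.Agent.NoH.mem_iff z).1 (Pool.Agent.NoH.far_not_mem z hz)

theorem isConnected : IsConnected Spectrum := Pool.Agent.FZC.Sig_connected

theorem isCompact : IsCompact Spectrum := by
  have h : IsCompact Pool.Agent.FZC.Sig := by
    rw [Pool.Agent.FZC.Sig_eq]; exact Pool.Agent.FZC.isCompact_bddSol
  exact h

/-- The Feinberg-Zee spectrum `Σ` is connected, and every loop in the space `Σ` is homotopic in `Σ`,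
with fixed base point, to the constant loop. -/
theorem result : IsConnected Spectrum ∧
    ∀ (z : Spectrum) (γ : Path z z), γ.Homotopic (Path.refl z) :=
  ⟨isConnected, fun z γ => Pool.Agent.Lps.loop_null isCompact isConnected isConnected_compl z γ⟩

end Pool.Agent.Results.MP_1366af_an.LoopsContract
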