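import Pool.Agent.FZE.Riley

set_option autoImplicit false

/-!
# The complement of the Feinberg-Zee spectrum is the Riley slice

The theorem `Spectrum_eq` shows that the set `Spectrum` is, verbatim, the one of the frozen
statement `S03875`.
-/

namespace Pool.Agent.Results.MP_1366af_an.RileySlice

open Matrix

/-- `ℓ²(ℤ)`, the square-summable sequences `ℤ → ℂ`. -/
abbrev L2Z : Type := lp (fun _ : ℤ => ℂ) 2

/-- The bounded linear operators on `ℓ²(ℤ)`. -/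
abbrev Op : Type := L2Z →L[ℂ] L2Z

/-- `y = (A_b - z) x`, where `(A_b x) n = x (n + 1) + b (n - 1) * x (n - 1)`. -/
def Eqn (b : ℤ → ℂ) (z : ℂ) (x y : L2Z) : Prop :=
  ∀ n : ℤ, y n = x (n + 1) + b (n - 1) * x (n - 1) - z * x n

/-- `A_b - z` has a bounded inverse `B`. -/
def HasInverse (b : ℤ → ℂ) (z : ℂ) : Prop :=
  ∃ B : Op, ∀ x y : L2Z, Eqn b z x y ↔ B y = x

/-- The Feinberg-Zee spectrum: the union of the spectra of `A_b` over all sign sequences `b`. -/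
def Spectrum : Set ℂ :=
  {z : ℂ | ∃ b : ℤ → ℂ, (∀ n, b n = 1 ∨ b n = -1) ∧ ¬ HasInverse b z}

theorem Spectrum_eq : Spectrum = {z : ℂ | ∃ b : ℤ → ℂ, (∀ n, b n = 1 ∨ b n = -1) ∧
      ¬ ∃ B : lp (fun _ : ℤ => ℂ) 2 →L[ℂ] lp (fun _ : ℤ => ℂ) 2,
        ∀ x y : lp (fun _ : ℤ => ℂ) 2,
          (∀ n : ℤ, y n = x (n + 1) + b (n - 1) * x (n - 1) - z * x n) ↔ B y = x} := rfl

/-- The matrices `(1 1; 0 1)` and `(1 0; ρ 1)`. -/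
noncomputable def gen (ρ : ℂ) : Fin 2 → SpecialLinearGroup (Fin 2) ℂ :=
  ![⟨!![1, 1; 0, 1], by simp⟩, ⟨!![1, 0; ρ, 1], by simp⟩]

/-- The two matrices generate a discrete free group of rank 2: every nontrivial word in them
differs from the identity matrix by at least `ε` in some entry. -/
def FreeDiscrete (ρ : ℂ) : Prop :=
  ∃ ε : ℝ, 0 < ε ∧ ∀ x : FreeGroup (Fin 2), x ≠ 1 → ∃ i j,
    ε ≤ ‖(FreeGroup.lift (gen ρ) x : Matrix (Fin 2) (Fin 2) ℂ) i j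
      - (1 : Matrix (Fin 2) (Fin 2) ℂ) i j‖

theorem result (z : ℂ) :
    (z ∉ Spectrum → ∃ K : Set ℂ, IsCompact K ∧ IsConnected K ∧ IsConnected Kᶜ ∧
      (∀ w ∈ K, -w ∈ K) ∧ (∀ w : ℂ, w ≠ 0 → w ∈ K ∨ w⁻¹ ∈ K) ∧
      ∀ n : ℤ, n ≠ 0 → ∀ w ∈ K, w + n * z ∉ K) ∧
    (∀ K : Set ℂ, IsCompact K → (∀ w ∈ K, -w ∈ K) → (∀ w : ℂ, w ≠ 0 → w ∈ K ∨ w⁻¹ ∈ K) →
      (∀ w ∈ K, w + z ∉ K) → z ∉ Spectrum) ∧
    (z ∉ Spectrum → FreeDiscrete (z ^ 2)) ∧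
    (z ∉ Spectrum → ∀ (d : ℕ → ℤ) (b : ℕ → ℂ) (x : ℕ → ℂ), (∀ n, d n ≠ 0) →
      (∀ n, b n = 1 ∨ b n = -1) → x 0 = 1 → x 1 = d 0 * z →
      (∀ n, x (n + 2) = d (n + 1) * z * x (n + 1) - b n * x n) → ∀ n, 1 ≤ ‖z * x n‖) :=
  ⟨fun h => Pool.Agent.FZE.exists_cont h,
    fun _ h1 h2 h3 h4 => Pool.Agent.FZE.not_mem_of_weak h1 h2 h3 h4,
    fun h => Pool.Agent.FZE.freeDisc h,
    fun h _ _ _ hd hb h0 h1 hr n => Pool.Agent.FZE.digits h hd hb h0 h1 hr n⟩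

end Pool.Agent.Results.MP_1366af_an.RileySlice
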